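import Mathlib
import Pool.Agent.H93.Reid.NotGood

set_option autoImplicit false

namespace Pool.Agent.Results.MP_e8be57_al.SummandOutside

open DirectSum

/-- The smallest class of abelian groups which contains the groups satisfying `S` and is closed
under isomorphism, arbitrary direct sums and arbitrary direct products. -/
inductive Gen (S : AddCommGrpCat.{0} → Prop) : AddCommGrpCat.{0} → Prop
  | base (G : AddCommGrpCat.{0}) (h : S G) : Gen S G
  | iso (G H : AddCommGrpCat.{0}) (e : G ≃+ H) (h : Gen S G) : Gen S H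
  | sum (I : Type) (G : I → AddCommGrpCat.{0}) (h : ∀ i, Gen S (G i)) :
      Gen S (AddCommGrpCat.of (⨁ i, G i))
  | prod (I : Type) (G : I → AddCommGrpCat.{0}) (h : ∀ i, Gen S (G i)) :
      Gen S (AddCommGrpCat.of (∀ i, G i))

/-- The Reid class: the smallest class of abelian groups which contains `ℤ` and is closed under
isomorphism, arbitrary direct sums and arbitrary direct products. -/
def ReidClass : AddCommGrpCat.{0} → Prop := Gen (fun G => G = AddCommGrpCat.of ℤ)

/-- The smallest class which contains all countable abelian groups and is closed under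
isomorphism, arbitrary direct sums and arbitrary direct products. -/
def CountablyGenClass : AddCommGrpCat.{0} → Prop := Gen (fun G => Countable G)

theorem countablyGenClass_of_reidClass {G : AddCommGrpCat.{0}} (h : ReidClass G) :
    CountablyGenClass G := by
  unfold ReidClass at h
  unfold CountablyGenClass
  induction h with
  | base G h => subst h; exact Gen.base _ (inferInstanceAs (Countable ℤ))
  | iso G H e _ ih => exact Gen.iso G H e ih
  | sum I G _ ih => exact Gen.sum I G ih
  | prod I G _ ih => exact Gen.prod I G ih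

open Pool.Agent.H93.Reid in
theorem good_of_countablyGenClass {G : AddCommGrpCat.{0}} (h : CountablyGenClass G) :
    Retr G → Good G := by
  classical
  unfold CountablyGenClass at h
  induction h with
  | base G h =>
    intro hR
    have : Countable G := h
    exact good_of_countable hR.sep
  | iso G H E _ ih =>
    intro hH
    exact (ih (hH.trans E.toAddMonoidHom E.symm.toAddMonoidHom
      (fun y => E.symm_apply_apply y))).of_equiv E
  | sum I G _ ih =>
    intro hR
    have hR' : Retr (DirectSum I (fun i => G i)) := hR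
    have hRi : ∀ i, Retr (G i) := fun i => hR'.trans (DirectSum.of (fun i => G i) i) (ev i)
      (fun y => DirectSum.of_eq_same (β := fun i => G i) i y)
    exact good_directSum (X := fun i => G i) (fun i => (hRi i).sep) (fun i => ih i (hRi i))
  | prod I G _ ih =>
    intro hR
    have hR' : Retr ((i : I) → G i) := hR
    have hRi : ∀ i, Retr (G i) := fun i => hR'.trans (AddMonoidHom.single (fun i => G i) i)
      (Pi.evalAddMonoidHom (fun i => G i) i) (fun y => Pi.single_eq_same (M := fun i => G i) i y)
    exact good_pi (X := fun i => G i) hR' (fun i => ih i (hRi i))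

open Pool.Agent.H93.Reid in
theorem result : ReidClass (AddCommGrpCat.of (⨁ _ : ℕ, (ℕ → (ℕ →₀ ℤ)))) ∧
    ∃ A B : AddSubgroup (⨁ _ : ℕ, (ℕ → (ℕ →₀ ℤ))), A ⊓ B = ⊥ ∧ A ⊔ B = ⊤ ∧
      ¬ ReidClass (AddCommGrpCat.of A) ∧ ¬ CountablyGenClass (AddCommGrpCat.of A) := by
  have hF : ReidClass (AddCommGrpCat.of (ℕ →₀ ℤ)) :=
    Gen.iso _ _ (finsuppAddEquivDFinsupp (ι := ℕ) (M := ℤ)).symm
      (Gen.sum ℕ (fun _ => AddCommGrpCat.of ℤ) (fun _ => Gen.base _ rfl))
  have hP : ReidClass (AddCommGrpCat.of (ℕ → (ℕ →₀ ℤ))) :=
    Gen.prod ℕ (fun _ => AddCommGrpCat.of (ℕ →₀ ℤ)) (fun _ => hF)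
  have hD : ReidClass (AddCommGrpCat.of (⨁ _ : ℕ, (ℕ → (ℕ →₀ ℤ)))) :=
    Gen.sum ℕ (fun _ => AddCommGrpCat.of (ℕ → (ℕ →₀ ℤ))) (fun _ => hP)
  have hA : ¬ CountablyGenClass (AddCommGrpCat.of sec.range) := by
    intro h
    have h1 : Retr sec.range :=
      ⟨sec.range.subtype, sec.rangeRestrict.comp ret, by
        rintro ⟨_, x, rfl⟩
        apply Subtype.ext
        show sec (ret (sec x)) = sec x
        rw [ret_sec]⟩
    have h2 : Good sec.range := good_of_countablyGenClass h h1
    have hinj : Function.Injective sec := Function.LeftInverse.injective ret_sec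
    exact not_good_A (h2.of_equiv (AddMonoidHom.ofInjective hinj).symm)
  refine ⟨hD, sec.range, ret.ker, ?_, ?_, fun h => hA (countablyGenClass_of_reidClass h), hA⟩
  · rw [eq_bot_iff]
    rintro _ ⟨⟨x, rfl⟩, hx⟩
    have hx' : ret (sec x) = 0 := hx
    rw [ret_sec] at hx'
    rw [hx', map_zero]
    exact AddSubgroup.zero_mem _
  · rw [eq_top_iff]
    intro d _
    have h1 : sec (ret d) ∈ sec.range := ⟨ret d, rfl⟩
    have h2 : d - sec (ret d) ∈ ret.ker := by
      rw [AddMonoidHom.mem_ker, map_sub, ret_sec, sub_self]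
    have h3 : sec (ret d) + (d - sec (ret d)) = d := by abel
    rw [← h3]
    exact AddSubgroup.add_mem_sup h1 h2

end Pool.Agent.Results.MP_e8be57_al.SummandOutside
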